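import Pool.Agent.P8H47.FP.Stm5
import Pool.Agent.P8H40.FP.Lgf

/-! # Project FP, package LGO -/

set_option autoImplicit false

namespace Pool.Agent.P8H93.FP

open Pool.Agent.P8H47.FP
open Pool.Agent.P8H40.FP
open Pool.Agent.Y920.EP (pwG)
open Pool.Agent.P8H47.EC2 (Dat)
open Pool.Agent.P8H47.EC3 (Good Z Imm)

variable {F : Type} [Field F]

lemma neg_of_not_pos (e : OrdEmb F) {x : Fˣ} (h : ¬ 0 < e.f x) : (-x) ∈ Pos e := by
  change 0 < e.f _
  rw [Units.val_neg, map_neg, neg_pos]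
  refine lt_of_le_of_ne (not_lt.1 h) ?_
  rw [Ne, map_eq_zero]
  exact x.ne_zero

/-- two negative elements do not give a norm -/
lemma no_nm {K : Type} [Field K] [Algebra F K] {τ : K ≃ₐ[F] K} {e : OrdEmb F} (hτ : OrdG τ (Pos e))
    (x y : Fˣ) (h : Nm (Fx (Subgroup.zpowers τ)) (algebraMap F K x) (algebraMap F K y)) :
    0 < e.f x ∨ 0 < e.f y := by
  by_contra hcon
  rw [not_or] at hcon
  obtain ⟨a, ha, ha2⟩ := (hτ.pos (-x)).1 (neg_of_not_pos e hcon.1)
  obtain ⟨b, hb, hb2⟩ := (hτ.pos (-y)).1 (neg_of_not_pos e hcon.2)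
  obtain ⟨u, hu, v, hv, e1⟩ := h
  have hb0 : b ≠ 0 := by
    rintro rfl
    rw [zero_pow two_ne_zero, Units.val_neg, map_neg, eq_comm, neg_eq_zero, map_eq_zero] at hb2
    exact y.ne_zero hb2
  rw [Units.val_neg, map_neg] at ha2 hb2
  obtain ⟨w, hw, hw2⟩ := hτ.sum (u / b) (div_mem hu hb) (a * v / b) (div_mem (mul_mem ha hv) hb)
  refine hτ.neg ⟨w, hw, ?_⟩
  rw [← hw2]
  have h1 : b ^ 2 + u ^ 2 + a ^ 2 * v ^ 2 = 0 := by
    rw [ha2, hb2, e1]; ring
  field_simp
  linear_combination h1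

theorem lgo : S_LGO := by
  intro hC3 hC4 hL2 hL4 F _ h2 K hGal ι κ _ _ T O₀ J e hS O hG τ hτ hDsq
  classical
  -- (R)
  have hR : ∀ t : Fˣ, (∀ i, t ∈ T i) → (∀ j, t ∈ Pos (e j)) → ∀ z : Fˣ, NN t z := by
    intro t ht ht' z
    rcases isEmpty_or_nonempty (ι ⊕ κ) with hι | hι
    · exact hDsq z t (fun i => hι.elim (Sum.inl i)) (fun j => hι.elim (Sum.inr j))
    · obtain ⟨z', c, hz', hz'', hc⟩ := hC4 F ι κ T O₀ J e hS t ht ht' (-z)
      have h3 : NN t (-z') := ⟨1, c, by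
        rw [Units.val_neg]
        linear_combination -hc⟩
      have h4 : NN t ((-z)⁻¹ * z')⁻¹ := hDsq _ t
        (fun i => ⟨inv_mem (hz' i), ht i⟩) (fun j => ⟨inv_mem (show ((-z)⁻¹ * z') ∈ Pos (e j) from hz'' j), ht' j⟩)
      have h5 := h3.mul h4
      have h6 : -z' * ((-z)⁻¹ * z')⁻¹ = z := by
        apply Units.ext
        simp only [Units.val_mul, Units.val_neg, Units.val_inv_eq_inv_val]
        have h7 := z.ne_zero
        have h8 := z'.ne_zero
        field_simp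
      rwa [h6] at h5
  refine ⟨⟨fun q x hx => mem_Fx.2 fun h hh => mem_Fx.1 hx h (Subgroup.mem_top _), ?_, ?_⟩,
    fun t ht ht' z => hR t ht ht' z⟩
  · -- sur
    intro y hy
    have key : ∀ i, ∃ f : Fˣ, ∃ β ∈ IntermediateField.fixedField (Z (F := F) (O i)), β ≠ 0 ∧
        y (Sum.inl i) = algebraMap F K f * β ^ 2 := by
      intro i
      obtain ⟨f, hf, m, hm, hm1, e⟩ := (hG i).imm (y (Sum.inl i)) (hy (Sum.inl i)).1 (hy (Sum.inl i)).2
      obtain ⟨β, hβ, hβ2⟩ := (hG i).root m hm hm1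
      refine ⟨Units.mk0 f hf, β, hβ, ?_, by rw [Units.val_mk0, hβ2, e]⟩
      rintro rfl
      have h3 := val_one_add (O i) hm1
      rw [← hβ2, zero_pow two_ne_zero, map_zero] at h3
      exact zero_ne_one h3
    choose f β hβ hβ0 hyf using key
    have key2 : ∀ j, ∃ b : ℚ, ∃ w ∈ Fx (Subgroup.zpowers (τ j)), w ≠ 0 ∧
        ((b = 1 ∧ y (Sum.inr j) = w ^ 2) ∨ (b = -1 ∧ y (Sum.inr j) = - w ^ 2)) := by
      intro j
      have hyj := (hy (Sum.inr j)).2
      rcases (hτ j).sq (y (Sum.inr j)) (hy (Sum.inr j)).1 hyj with ⟨w, hw, e1⟩ | ⟨w, hw, e1⟩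
      · refine ⟨1, w, hw, ?_, Or.inl ⟨rfl, e1⟩⟩
        rintro rfl
        exact hyj (by rw [e1]; ring)
      · refine ⟨-1, w, hw, ?_, Or.inr ⟨rfl, e1⟩⟩
        rintro rfl
        exact hyj (by rw [e1]; ring)
    choose b w hw hw0 hb using key2
    obtain ⟨z, hz, hz'⟩ := hC3 F ι κ T O₀ J e hS f b (fun j => by
      rcases hb j with h | h
      · rw [h.1]; norm_num
      · rw [h.1]; norm_num) 2
    have hz0 : algebraMap F K z ≠ 0 := by
      rw [Ne, map_eq_zero]
      exact z.ne_zero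
    refine ⟨algebraMap F K z, (mem_top_iff hGal _).2 ⟨z, rfl⟩, hz0, ?_⟩
    rintro (i | j)
    · obtain ⟨w, hw, hw2⟩ := ((hG i).ker _).1 (hz i).1
      have hf0 : algebraMap F K (f i) ≠ 0 := by
        rw [Ne, map_eq_zero]
        exact (f i).ne_zero
      rw [Units.val_mul, Units.val_inv_eq_inv_val, map_mul, map_inv₀] at hw2
      have hw0 : w ≠ 0 := by
        rintro rfl
        rw [zero_pow two_ne_zero] at hw2
        exact mul_ne_zero (inv_ne_zero hf0) hz0 hw2.symm
      refine ⟨w / β i, div_mem (S := IntermediateField F K) hw (hβ i), div_ne_zero hw0 (hβ0 i), ?_⟩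
      rw [hyf i, div_pow, hw2]
      have := hβ0 i
      field_simp
    · have hzj := hz' j
      rcases hb j with ⟨hb1, hy1⟩ | ⟨hb1, hy1⟩
      · have hpos : z ∈ Pos (e j) := by
          change 0 < (e j).f z
          rw [hb1] at hzj
          push_cast at hzj
          rw [abs_one] at hzj
          have h1 := neg_abs_le ((e j).f z - 1)
          linarith
        obtain ⟨a, ha, ha2⟩ := ((hτ j).pos z).1 hpos
        have ha0 : a ≠ 0 := by
          rintro rfl
          rw [zero_pow two_ne_zero] at ha2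
          exact hz0 ha2.symm
        refine ⟨a / w j, div_mem ha (hw j), div_ne_zero ha0 (hw0 j), ?_⟩
        rw [← ha2, hy1]
        have := hw0 j
        field_simp
      · have hpos : -z ∈ Pos (e j) := by
          change 0 < (e j).f _
          rw [Units.val_neg, map_neg]
          rw [hb1] at hzj
          push_cast at hzj
          rw [abs_neg, abs_one] at hzj
          have h1 := le_abs_self ((e j).f z - -1)
          linarith
        obtain ⟨a, ha, ha2⟩ := ((hτ j).pos (-z)).1 hpos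
        rw [Units.val_neg, map_neg] at ha2
        have ha0 : a ≠ 0 := by
          rintro rfl
          rw [zero_pow two_ne_zero] at ha2
          exact hz0 (by rw [← neg_eq_zero, ← ha2])
        refine ⟨a / w j, div_mem ha (hw j), div_ne_zero ha0 (hw0 j), ?_⟩
        have h3 : algebraMap F K z = - a ^ 2 := by rw [ha2, neg_neg]
        rw [h3, hy1]
        have := hw0 j
        field_simp
  · -- loc
    intro x hx y hy hx0 hy0 hloc
    obtain ⟨x₀, rfl⟩ := (mem_top_iff hGal x).1 hx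
    obtain ⟨y₀, rfl⟩ := (mem_top_iff hGal y).1 hy
    have hx0' : x₀ ≠ 0 := by
      rintro rfl
      exact hx0 (map_zero _)
    have hy0' : y₀ ≠ 0 := by
      rintro rfl
      exact hy0 (map_zero _)
    obtain ⟨X, Y, hXY, hT, hP⟩ := hL2 F h2 ι κ T O₀ J e hS (Units.mk0 x₀ hx0') (Units.mk0 y₀ hy0') (fun i =>
      hL4 F h2 K (T i) (O₀ i) (J i) (hS.dat i) (O i) (hG i) _ _ (hloc (Sum.inl i)))
      (fun j => no_nm (hτ j) _ _ (hloc (Sum.inr j)))
    set a : Fˣ := Units.mk0 x₀ hx0' with ha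
    set b : Fˣ := Units.mk0 y₀ hy0' with hb
    have h3 : NN X Y := ⟨1, 1, by linear_combination hXY⟩
    have h4 : NN Y X := h3.symm h2
    have h5 : NN Y (a⁻¹ * X) := (hR _ (fun i => (hT i).1) (fun j => (hP j).1) Y).symm h2
    have h6 : NN Y a := by
      have := h4.mul h5.inv
      have e : X * (a⁻¹ * X)⁻¹ = a := by group
      rwa [e] at this
    have h7 : NN a Y := h6.symm h2
    have h8 : NN a (b⁻¹ * Y) := (hR _ (fun i => (hT i).2) (fun j => (hP j).2) a).symm h2
    have h9 : NN a b := by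
      have := h7.mul h8.inv
      have e : Y * (b⁻¹ * Y)⁻¹ = b := by group
      rwa [e] at this
    obtain ⟨u, v, e⟩ := h9
    refine ⟨algebraMap F K u, (mem_top_iff hGal _).2 ⟨u, rfl⟩, algebraMap F K v, (mem_top_iff hGal _).2 ⟨v, rfl⟩, ?_⟩
    have e' : y₀ = u ^ 2 - x₀ * v ^ 2 := e
    rw [e', map_sub, map_mul, map_pow, map_pow]

end Pool.Agent.P8H93.FP
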